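import Pool.Agent.J4H61.QB.Stm2

/-!
# Project QB (helper61, MP_a4cf75_mp): (DIAG), qubits: diagonalisation
-/

set_option autoImplicit false

open Matrix MeasureTheory
open scoped ComplexOrder

namespace Pool.Agent.J4H97.QB.Diag

open Pool.Agent.V11219.MomentOp Pool.Agent.J4H61.QB

/-- the Haar measure of `U(n)` is right invariant -/
theorem right_inv (n : Type) [Fintype n] [DecidableEq n] : (haarU n).IsMulRightInvariant := by
  refine ⟨fun g => ?_⟩
  have hp : IsProbabilityMeasure (Measure.map (· * g) (haarU n)) :=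
    Measure.isProbabilityMeasure_map (measurable_mul_const g).aemeasurable
  exact Measure.isHaarMeasure_eq_of_isProbabilityMeasure _ _

/-- invariance under conjugation -/
theorem integral_conj (n : Type) [Fintype n] [DecidableEq n] (f : Matrix.unitaryGroup n ℂ → ℂ)
    (g : Matrix.unitaryGroup n ℂ) :
    ∫ U, f (g⁻¹ * (U * g)) ∂(haarU n) = ∫ U, f U ∂(haarU n) := by
  have := right_inv n
  rw [integral_mul_right_eq_self (μ := haarU n) (fun U => f (g⁻¹ * U)) g,
    integral_mul_left_eq_self (μ := haarU n) f g⁻¹]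

/-- `F` is invariant under conjugation -/
theorem F_conj (d t : ℕ) (W : Matrix.unitaryGroup (Fin d) ℂ) (D : Mat d) :
    F d t ((W : Mat d) * D * star (W : Mat d)) = F d t D := by
  unfold F
  congr 1
  rw [← integral_conj (Fin d) (fun U => (Matrix.trace (U : Mat d)) ^ t *
    (Matrix.trace (D * (U : Mat d)ᴴ)) ^ t) W]
  refine integral_congr_ae (Filter.Eventually.of_forall fun U => ?_)
  have hW1 : (W : Mat d) * star (W : Mat d) = 1 := Matrix.mem_unitaryGroup_iff.mp W.2
  have hW : ((W⁻¹ * (U * W) : Matrix.unitaryGroup (Fin d) ℂ) : Mat d) =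
      star (W : Mat d) * ((U : Mat d) * (W : Mat d)) := by
    simp [Matrix.UnitaryGroup.inv_val]
  have e1 : Matrix.trace (star (W : Mat d) * ((U : Mat d) * (W : Mat d))) = Matrix.trace (U : Mat d) := by
    rw [Matrix.trace_mul_comm, Matrix.mul_assoc, hW1, Matrix.mul_one]
  have e2 : Matrix.trace (D * (star (W : Mat d) * ((U : Mat d) * (W : Mat d)))ᴴ) =
      Matrix.trace ((W : Mat d) * D * star (W : Mat d) * (U : Mat d)ᴴ) := by
    rw [← Matrix.star_eq_conjTranspose, ← Matrix.star_eq_conjTranspose, star_mul, star_mul, star_star]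
    rw [show (W : Mat d) * D * star (W : Mat d) * star (U : Mat d) =
      (W : Mat d) * (D * (star (W : Mat d) * star (U : Mat d))) by simp only [Matrix.mul_assoc]]
    rw [Matrix.trace_mul_comm (W : Mat d)]
    simp only [Matrix.mul_assoc]
  simp only [hW, e1, e2]

theorem t_DIAG : S_DIAG := by
  intro t X hX htr
  have hs := hX.1.spectral_theorem
  rw [Unitary.conjStarAlgAut_apply] at hs
  obtain ⟨x, hx⟩ : ∃ x, x = hX.1.eigenvalues 0 := ⟨_, rfl⟩
  obtain ⟨y, hy⟩ : ∃ y, y = hX.1.eigenvalues 1 := ⟨_, rfl⟩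
  have hD : (Matrix.diagonal (RCLike.ofReal ∘ hX.1.eigenvalues) : Mat 2) = Matrix.diagonal ![(x : ℂ), (y : ℂ)] := by
    congr 1
    ext i
    fin_cases i
    · simp [hx]
    · simp [hy]
  rw [hD] at hs
  refine ⟨x, y, ?_, ?_, ?_, ?_⟩
  · rw [hx]; exact hX.eigenvalues_nonneg 0
  · rw [hy]; exact hX.eigenvalues_nonneg 1
  · have hW : star (hX.1.eigenvectorUnitary : Mat 2) * (hX.1.eigenvectorUnitary : Mat 2) = 1 :=
      Matrix.mem_unitaryGroup_iff'.mp hX.1.eigenvectorUnitary.2
    have h1 : X.trace = (x : ℂ) + y := by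
      conv_lhs => rw [hs]
      rw [Matrix.trace_mul_comm, ← Matrix.mul_assoc]
      have e : star (hX.1.eigenvectorUnitary : Mat 2) * (hX.1.eigenvectorUnitary : Mat 2) *
          Matrix.diagonal ![(x : ℂ), (y : ℂ)] = Matrix.diagonal ![(x : ℂ), (y : ℂ)] := by
        rw [hW, Matrix.one_mul]
      refine (congrArg Matrix.trace e).trans ?_
      simp [Matrix.trace, Fin.sum_univ_two]
    rw [htr] at h1
    exact_mod_cast h1.symm
  · conv_lhs => rw [hs]
    exact F_conj 2 t hX.1.eigenvectorUnitary _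

end Pool.Agent.J4H97.QB.Diag
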