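import Pool.Agent.J4H61.QB.Stm2

/-!
# Project QB (helper61, MP_a4cf75_mp): (NUM), the inequality between numbers

Both sides are the coefficient of `z ^ t` in `((x z + y) (z + 1)) ^ t = ((x z ^ 2 + y) + (x + y) z) ^ t`.
-/

set_option autoImplicit false

open Polynomial

namespace Pool.Agent.J4H97.QB

theorem coeff_lin (a b : ℝ) (t k : ℕ) :
    ((C a * X + C b : ℝ[X]) ^ t).coeff k = (t.choose k : ℝ) * a ^ k * b ^ (t - k) := by
  rw [add_pow, finsetSum_coeff]
  have h : ∀ m, ((C a * X : ℝ[X]) ^ m * (C b) ^ (t - m) * ((t.choose m : ℕ) : ℝ[X])).coeff k =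
      if k = m then (t.choose m : ℝ) * a ^ m * b ^ (t - m) else 0 := by
    intro m
    have e : (C a * X : ℝ[X]) ^ m * (C b) ^ (t - m) * ((t.choose m : ℕ) : ℝ[X]) =
        C ((t.choose m : ℝ) * a ^ m * b ^ (t - m)) * X ^ m := by
      simp only [map_mul, map_pow, map_natCast, mul_pow]
      ring
    rw [e, coeff_C_mul_X_pow]
  simp only [h]
  rw [Finset.sum_ite_eq]
  split_ifs with h1
  · rfl
  · rw [Finset.mem_range, not_lt] at h1
    rw [Nat.choose_eq_zero_of_lt (by omega)]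
    simp

theorem lhs (t : ℕ) (x y : ℝ) : (((C x * X + C y) * (C 1 * X + C 1) : ℝ[X]) ^ t).coeff t =
    ∑ k ∈ Finset.range (t + 1), (t.choose k : ℝ) ^ 2 * x ^ k * y ^ (t - k) := by
  rw [mul_pow, coeff_mul, Finset.Nat.sum_antidiagonal_eq_sum_range_succ_mk]
  refine Finset.sum_congr rfl fun k hk => ?_
  rw [Finset.mem_range] at hk
  rw [coeff_lin, coeff_lin, Nat.choose_symm (by omega), one_pow, one_pow]
  ring

theorem rhs (t : ℕ) (x y : ℝ) : (((C x * X + C y) * (C 1 * X + C 1) : ℝ[X]) ^ t).coeff t =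
    ∑ m ∈ Finset.range (t + 1), (t.choose m : ℝ) * (x + y) ^ (t - m) *
      (if 2 ∣ m then (m.choose (m / 2) : ℝ) * (x * y) ^ (m / 2) else 0) := by
  have e : ((C x * X + C y) * (C 1 * X + C 1) : ℝ[X]) = expand ℝ 2 (C x * X + C y) + C (x + y) * X := by
    simp only [map_add, map_mul, map_one, expand_C, expand_X]
    ring
  rw [e, add_pow, finsetSum_coeff]
  refine Finset.sum_congr rfl fun m hm => ?_
  rw [Finset.mem_range] at hm
  have e2 : (expand ℝ 2 (C x * X + C y)) ^ m * (C (x + y) * X) ^ (t - m) * ((t.choose m : ℕ) : ℝ[X]) =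
      C ((t.choose m : ℝ) * (x + y) ^ (t - m)) * (expand ℝ 2 ((C x * X + C y) ^ m) * X ^ (t - m)) := by
    simp only [map_mul, map_pow, map_natCast, mul_pow]
    ring
  have e3 : t = m + (t - m) := by omega
  rw [e2, coeff_C_mul]
  congr 1
  conv_lhs => rw [e3]
  rw [show m + (t - m) - m = t - m by omega, coeff_mul_X_pow, coeff_expand two_pos]
  split_ifs with h
  · obtain ⟨i, rfl⟩ := h
    rw [coeff_lin, Nat.mul_div_cancel_left i two_pos, show 2 * i - i = i by omega, mul_pow]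
    ring
  · rfl

theorem t_NUM : Pool.Agent.J4H61.QB.S_NUM := by
  intro t x y hx hy hxy
  have h1 := (lhs t x y).symm.trans (rhs t x y)
  have h2 := (lhs t 1 1).symm.trans (rhs t 1 1)
  have h3 : ∑ k ∈ Finset.range (t + 1), (t.choose k : ℝ) ^ 2 =
      ∑ k ∈ Finset.range (t + 1), (t.choose k : ℝ) ^ 2 * 1 ^ k * 1 ^ (t - k) := by
    simp
  rw [h3, h1, h2, hxy]
  refine Finset.sum_le_sum fun m _ => ?_
  have hq : x * y ≤ 1 := by nlinarith [sq_nonneg (x - y)]
  have hq0 : 0 ≤ x * y := mul_nonneg hx hy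
  have e : (1 : ℝ) + 1 = 2 := by norm_num
  rw [e]
  split_ifs with h
  · have : (x * y) ^ (m / 2) ≤ (1 * 1 : ℝ) ^ (m / 2) := by
      rw [mul_one, one_pow]
      exact pow_le_one₀ hq0 hq
    gcongr
  · exact le_refl _

end Pool.Agent.J4H97.QB
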