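import Pool.Agent.J4H61.QB.Stm4

/-!
# Project QB (helper61, MP_a4cf75_mp Q1): (C2P), the second order equation
-/

set_option autoImplicit false

open Matrix MeasureTheory
open scoped ComplexOrder

namespace Pool.Agent.J4H97.QB.C2

open Pool.Agent.V11219.MomentOp Pool.Agent.J4H61.QB

variable {d : ℕ}

/-- the unitary group -/
abbrev UU (d : ℕ) := Matrix.unitaryGroup (Fin d) ℂ

theorem cont_entry (i j : Fin d) : Continuous fun U : UU d => (U : Mat d) i j :=
  (continuous_apply_apply i j).comp continuous_subtype_val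

theorem cont_trace (K : Mat d) : Continuous fun U : UU d => Matrix.trace (K * (U : Mat d)) := by
  unfold Matrix.trace
  refine continuous_finsetSum _ fun i _ => ?_
  simp only [Matrix.diag_apply, Matrix.mul_apply]
  exact continuous_finsetSum _ fun j _ => continuous_const.mul (cont_entry j i)

theorem cont_traceH (K : Mat d) : Continuous fun U : UU d => Matrix.trace (K * (U : Mat d)ᴴ) := by
  unfold Matrix.trace
  refine continuous_finsetSum _ fun i _ => ?_
  simp only [Matrix.diag_apply, Matrix.mul_apply, Matrix.conjTranspose_apply]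
  exact continuous_finsetSum _ fun j _ => continuous_const.mul (continuous_star.comp (cont_entry i j))

theorem cont_tr : Continuous fun U : UU d => Matrix.trace (U : Mat d) := by
  have h := cont_trace (1 : Mat d)
  simpa only [Matrix.one_mul] using h

theorem integ {f : UU d → ℂ} (hf : Continuous f) : Integrable f (haarU (Fin d)) :=
  hf.integrable_of_hasCompactSupport (HasCompactSupport.of_compactSpace f)

theorem hasDeriv (F F' : ℂ → UU d → ℂ) (hF : ∀ z, Continuous (F z)) (hF' : Continuous (Function.uncurry F'))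
    (hd : ∀ z U, HasDerivAt (fun z => F z U) (F' z U) z) :
    HasDerivAt (fun z => ∫ U, F z U ∂(haarU (Fin d))) (∫ U, F' 0 U ∂(haarU (Fin d))) 0 := by
  obtain ⟨M, hM⟩ := ((isCompact_closedBall (0 : ℂ) 1).prod
    (isCompact_univ : IsCompact (Set.univ : Set (UU d)))).exists_bound_of_continuousOn
    (f := Function.uncurry F') hF'.continuousOn
  refine (hasDerivAt_integral_of_dominated_loc_of_deriv_le (s := Metric.closedBall 0 1) (bound := fun _ => M)
    (F := F) (F' := F') (Metric.closedBall_mem_nhds 0 one_pos) ?_ ?_ ?_ ?_ ?_ ?_).2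
  · exact Filter.Eventually.of_forall fun z => (hF z).aestronglyMeasurable
  · exact integ (hF 0)
  · exact (hF'.comp (by fun_prop : Continuous fun U : UU d => ((0 : ℂ), U))).aestronglyMeasurable
  · exact Filter.Eventually.of_forall fun U z hz => hM (z, U) ⟨hz, Set.mem_univ _⟩
  · exact integrable_const M
  · exact Filter.Eventually.of_forall fun U z _ => hd z U

theorem deriv_pow (a p c r s : UU d → ℂ) (ha : Continuous a) (hp : Continuous p) (hc : Continuous c)
    (hr : Continuous r) (hs : Continuous s) (n : ℕ) :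
    HasDerivAt (fun z : ℂ => ∫ U, a U * ((p U + z * c U) ^ n * (r U + z * s U)) ∂(haarU (Fin d)))
      (∫ U, a U * ((n : ℂ) * p U ^ (n - 1) * c U * r U + p U ^ n * s U) ∂(haarU (Fin d))) 0 := by
  have h := hasDeriv (fun z U => a U * ((p U + z * c U) ^ n * (r U + z * s U)))
    (fun z U => a U * ((n : ℂ) * (p U + z * c U) ^ (n - 1) * c U * (r U + z * s U) + (p U + z * c U) ^ n * s U))
    (fun z => by fun_prop) (by unfold Function.uncurry; fun_prop) (fun z U => by
      have h1 : HasDerivAt (fun z : ℂ => p U + z * c U) (c U) z := by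
        simpa using ((hasDerivAt_id z).mul_const (c U)).const_add (p U)
      have h2 : HasDerivAt (fun z : ℂ => r U + z * s U) (s U) z := by
        simpa using ((hasDerivAt_id z).mul_const (s U)).const_add (r U)
      exact ((h1.pow n).mul h2).const_mul (a U))
  simpa using h

/-- the derivatives of the Schwinger-Dyson equations -/
theorem pol (hSD : S_SD) (t : ℕ) (X K C : Mat d) :
    (∫ U : UU d, (Matrix.trace (U : Mat d)) ^ t * Matrix.trace (K * (U : Mat d)) *
      (((t + 1 : ℕ) : ℂ) * Matrix.trace (X * (U : Mat d)ᴴ) ^ t * Matrix.trace (C * (U : Mat d)ᴴ)) ∂(haarU (Fin d)) =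
    ∫ U : UU d, (Matrix.trace (U : Mat d)) ^ (t + 1) *
      ((t : ℂ) * Matrix.trace (X * (U : Mat d)ᴴ) ^ (t - 1) * Matrix.trace (C * (U : Mat d)ᴴ) *
        Matrix.trace (K * X * (U : Mat d)ᴴ) +
        Matrix.trace (X * (U : Mat d)ᴴ) ^ t * Matrix.trace (K * C * (U : Mat d)ᴴ)) ∂(haarU (Fin d))) ∧
    (∫ U : UU d, (Matrix.trace (U : Mat d)) ^ t * Matrix.trace (K * (U : Mat d)) *
      (((t + 1 : ℕ) : ℂ) * Matrix.trace (X * (U : Mat d)ᴴ) ^ t * Matrix.trace (C * (U : Mat d)ᴴ)) ∂(haarU (Fin d)) =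
    ∫ U : UU d, (Matrix.trace (U : Mat d)) ^ (t + 1) *
      ((t : ℂ) * Matrix.trace (X * (U : Mat d)ᴴ) ^ (t - 1) * Matrix.trace (C * (U : Mat d)ᴴ) *
        Matrix.trace (X * K * (U : Mat d)ᴴ) +
        Matrix.trace (X * (U : Mat d)ᴴ) ^ t * Matrix.trace (C * K * (U : Mat d)ᴴ)) ∂(haarU (Fin d))) := by
  have d1 := deriv_pow (fun U : UU d => (Matrix.trace (U : Mat d)) ^ t * Matrix.trace (K * (U : Mat d)))
    (fun U => Matrix.trace (X * (U : Mat d)ᴴ)) (fun U => Matrix.trace (C * (U : Mat d)ᴴ)) (fun _ => 1) (fun _ => 0)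
    ((cont_tr.pow t).mul (cont_trace K)) (cont_traceH X) (cont_traceH C) continuous_const continuous_const (t + 1)
  have d2 := deriv_pow (fun U : UU d => (Matrix.trace (U : Mat d)) ^ (t + 1))
    (fun U => Matrix.trace (X * (U : Mat d)ᴴ)) (fun U => Matrix.trace (C * (U : Mat d)ᴴ))
    (fun U => Matrix.trace (K * X * (U : Mat d)ᴴ)) (fun U => Matrix.trace (K * C * (U : Mat d)ᴴ))
    (cont_tr.pow (t + 1)) (cont_traceH X) (cont_traceH C) (cont_traceH _) (cont_traceH _) t
  have d3 := deriv_pow (fun U : UU d => (Matrix.trace (U : Mat d)) ^ (t + 1))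
    (fun U => Matrix.trace (X * (U : Mat d)ᴴ)) (fun U => Matrix.trace (C * (U : Mat d)ᴴ))
    (fun U => Matrix.trace (X * K * (U : Mat d)ᴴ)) (fun U => Matrix.trace (C * K * (U : Mat d)ᴴ))
    (cont_tr.pow (t + 1)) (cont_traceH X) (cont_traceH C) (cont_traceH _) (cont_traceH _) t
  have e0 : ∀ (z : ℂ) (U : UU d), Matrix.trace ((X + z • C) * (U : Mat d)ᴴ) =
      Matrix.trace (X * (U : Mat d)ᴴ) + z * Matrix.trace (C * (U : Mat d)ᴴ) := by
    intro z U
    rw [Matrix.add_mul, Matrix.trace_add, Matrix.smul_mul, Matrix.trace_smul, smul_eq_mul]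
  have e1 : ∀ (z : ℂ) (U : UU d), Matrix.trace (K * (X + z • C) * (U : Mat d)ᴴ) =
      Matrix.trace (K * X * (U : Mat d)ᴴ) + z * Matrix.trace (K * C * (U : Mat d)ᴴ) := by
    intro z U
    rw [Matrix.mul_add, Matrix.add_mul, Matrix.trace_add, Matrix.mul_smul, Matrix.smul_mul, Matrix.trace_smul,
      smul_eq_mul]
  have e2 : ∀ (z : ℂ) (U : UU d), Matrix.trace ((X + z • C) * K * (U : Mat d)ᴴ) =
      Matrix.trace (X * K * (U : Mat d)ᴴ) + z * Matrix.trace (C * K * (U : Mat d)ᴴ) := by
    intro z U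
    rw [Matrix.add_mul, Matrix.add_mul, Matrix.trace_add, Matrix.smul_mul, Matrix.smul_mul, Matrix.trace_smul,
      smul_eq_mul]
  have f1 : ∀ z : ℂ, ∫ U : UU d, (Matrix.trace (U : Mat d)) ^ t * Matrix.trace (K * (U : Mat d)) *
      ((Matrix.trace (X * (U : Mat d)ᴴ) + z * Matrix.trace (C * (U : Mat d)ᴴ)) ^ (t + 1) * (1 + z * 0))
        ∂(haarU (Fin d)) =
      ∫ U : UU d, (Matrix.trace (U : Mat d)) ^ (t + 1) *
        ((Matrix.trace (X * (U : Mat d)ᴴ) + z * Matrix.trace (C * (U : Mat d)ᴴ)) ^ t *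
          (Matrix.trace (K * X * (U : Mat d)ᴴ) + z * Matrix.trace (K * C * (U : Mat d)ᴴ))) ∂(haarU (Fin d)) := by
    intro z
    have h := (hSD d t K (X + z • C)).1
    simp only [e0, e1] at h
    rw [← h]
    refine integral_congr_ae (Filter.Eventually.of_forall fun U => ?_)
    simp only [mul_zero, add_zero, mul_one]
  have f2 : ∀ z : ℂ, ∫ U : UU d, (Matrix.trace (U : Mat d)) ^ t * Matrix.trace (K * (U : Mat d)) *
      ((Matrix.trace (X * (U : Mat d)ᴴ) + z * Matrix.trace (C * (U : Mat d)ᴴ)) ^ (t + 1) * (1 + z * 0))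
        ∂(haarU (Fin d)) =
      ∫ U : UU d, (Matrix.trace (U : Mat d)) ^ (t + 1) *
        ((Matrix.trace (X * (U : Mat d)ᴴ) + z * Matrix.trace (C * (U : Mat d)ᴴ)) ^ t *
          (Matrix.trace (X * K * (U : Mat d)ᴴ) + z * Matrix.trace (C * K * (U : Mat d)ᴴ))) ∂(haarU (Fin d)) := by
    intro z
    have h := (hSD d t K (X + z • C)).2
    simp only [e0, e2] at h
    rw [← h]
    refine integral_congr_ae (Filter.Eventually.of_forall fun U => ?_)
    simp only [mul_zero, add_zero, mul_one]
  have g1 := d1.congr_of_eventuallyEq (Filter.Eventually.of_forall fun z => (f1 z).symm)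
  have g2 := d1.congr_of_eventuallyEq (Filter.Eventually.of_forall fun z => (f2 z).symm)
  have k1 := g1.unique d2
  have k2 := g2.unique d3
  simp only [mul_zero, add_zero, mul_one, Nat.add_sub_cancel] at k1 k2
  exact ⟨k1, k2⟩

/-- `∑ x_i conj u_ii` -/
noncomputable def LL (x : Fin d → ℂ) (U : UU d) : ℂ := ∑ i, x i * star ((U : Mat d) i i)

theorem cont_star (i j : Fin d) : Continuous fun U : UU d => star ((U : Mat d) i j) :=
  continuous_star.comp (cont_entry i j)

theorem cont_LL (x : Fin d → ℂ) : Continuous (LL x) := by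
  unfold LL
  exact continuous_finsetSum _ fun i _ => continuous_const.mul (cont_star i i)

/-- the polynomial `∫ w (∑ X_i conj u_ii)^n` -/
noncomputable def qq (w : UU d → ℂ) (n : ℕ) : MvPolynomial (Fin d) ℂ :=
  ∑ m ∈ Finset.piAntidiag Finset.univ n,
    MvPolynomial.monomial (Finsupp.equivFunOnFinite.symm m)
      ((n.factorial : ℂ) / (∏ i, ((m i).factorial : ℂ)) *
        ∫ U : UU d, w U * ∏ i, (star ((U : Mat d) i i)) ^ (m i) ∂(haarU (Fin d)))

theorem fp_eq (t : ℕ) : fp d t = qq (fun U : UU d => (Matrix.trace (U : Mat d)) ^ t) t := rfl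

theorem multi (n : ℕ) (m : Fin d → ℕ) (hm : m ∈ Finset.piAntidiag Finset.univ n) :
    ((Nat.multinomial Finset.univ m : ℕ) : ℂ) = (n.factorial : ℂ) / (∏ i, ((m i).factorial : ℂ)) := by
  have h0 : (∏ i, ((m i).factorial : ℂ)) ≠ 0 :=
    Finset.prod_ne_zero_iff.2 fun i _ => by exact_mod_cast Nat.factorial_ne_zero _
  rw [eq_div_iff h0, mul_comm]
  have h1 := Nat.multinomial_spec Finset.univ m
  rw [(Finset.mem_piAntidiag.1 hm).1] at h1
  exact_mod_cast h1

theorem eval_qq (w : UU d → ℂ) (hw : Continuous w) (n : ℕ) (x : Fin d → ℂ) :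
    MvPolynomial.eval x (qq w n) = ∫ U : UU d, w U * LL x U ^ n ∂(haarU (Fin d)) := by
  unfold qq
  rw [map_sum]
  have h1 : ∀ U : UU d, w U * LL x U ^ n = ∑ m ∈ Finset.piAntidiag Finset.univ n,
      ((n.factorial : ℂ) / (∏ i, ((m i).factorial : ℂ))) * (∏ i, x i ^ m i) *
        (w U * ∏ i, (star ((U : Mat d) i i)) ^ (m i)) := by
    intro U
    unfold LL
    rw [Finset.sum_pow_eq_sum_piAntidiag, Finset.mul_sum]
    refine Finset.sum_congr rfl fun m hm => ?_
    rw [multi n m hm]
    simp only [mul_pow, Finset.prod_mul_distrib]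
    ring
  simp only [h1]
  have h2 : ∀ m ∈ Finset.piAntidiag (Finset.univ : Finset (Fin d)) n, Integrable (fun U : UU d =>
      ((n.factorial : ℂ) / (∏ i, ((m i).factorial : ℂ))) * (∏ i, x i ^ m i) *
        (w U * ∏ i, (star ((U : Mat d) i i)) ^ (m i))) (haarU (Fin d)) := fun m _ =>
    (integ (hw.mul (continuous_finsetProd _ fun i _ => (cont_star i i).pow (m i)))).const_mul _
  rw [integral_finsetSum _ h2]
  refine Finset.sum_congr rfl fun m _ => ?_
  rw [integral_const_mul, MvPolynomial.eval_monomial, Finsupp.prod_fintype _ _ (by simp)]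
  simp only [Finsupp.equivFunOnFinite_symm_apply_apply]
  ring

theorem hasDerivAt_eval (p : MvPolynomial (Fin d) ℂ) (x : Fin d → ℂ) (i : Fin d) (z : ℂ) :
    HasDerivAt (fun z : ℂ => MvPolynomial.eval (x + z • Pi.single i 1) p)
      (MvPolynomial.eval (x + z • Pi.single i 1) (MvPolynomial.pderiv i p)) z := by
  induction p using MvPolynomial.induction_on with
  | C a => simpa using hasDerivAt_const z a
  | add p q hp hq =>
    simp only [map_add]
    exact hp.add hq
  | mul_X p j hp =>
    have h1 : HasDerivAt (fun z : ℂ => MvPolynomial.eval (x + z • Pi.single i 1) (MvPolynomial.X j))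
        (MvPolynomial.eval (x + z • Pi.single i 1) (MvPolynomial.pderiv i (MvPolynomial.X j))) z := by
      simp only [MvPolynomial.eval_X, Pi.add_apply, Pi.smul_apply, smul_eq_mul, MvPolynomial.pderiv_X]
      by_cases h : j = i
      · subst h
        simpa using (hasDerivAt_id z).const_add (x j)
      · simpa [Pi.single_apply, h] using hasDerivAt_const z (x j)
    rw [MvPolynomial.pderiv_mul]
    simp only [map_mul, map_add]
    exact hp.mul h1

theorem eval_pderiv (P : MvPolynomial (Fin d) ℂ) (a : UU d → ℂ) (ha : Continuous a) (n : ℕ)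
    (hP : ∀ y, MvPolynomial.eval y P = ∫ U : UU d, a U * LL y U ^ n ∂(haarU (Fin d))) (x : Fin d → ℂ) (i : Fin d) :
    MvPolynomial.eval x (MvPolynomial.pderiv i P) =
      ∫ U : UU d, a U * ((n : ℂ) * LL x U ^ (n - 1) * star ((U : Mat d) i i)) ∂(haarU (Fin d)) := by
  have h1 := hasDerivAt_eval P x i 0
  have h2 := deriv_pow a (LL x) (fun U : UU d => star ((U : Mat d) i i)) (fun _ => 1) (fun _ => 0)
    ha (cont_LL x) (cont_star i i) continuous_const continuous_const n
  have h3 : ∀ z : ℂ, MvPolynomial.eval (x + z • Pi.single i 1) P =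
      ∫ U : UU d, a U * ((LL x U + z * star ((U : Mat d) i i)) ^ n * (1 + z * 0)) ∂(haarU (Fin d)) := by
    intro z
    rw [hP]
    refine integral_congr_ae (Filter.Eventually.of_forall fun U => ?_)
    have h4 : LL (x + z • Pi.single i 1) U = LL x U + z * star ((U : Mat d) i i) := by
      unfold LL
      simp only [Pi.add_apply, Pi.smul_apply, smul_eq_mul, add_mul, Finset.sum_add_distrib]
      congr 1
      rw [Finset.sum_eq_single i]
      · simp
      · intro j _ hj
        simp [hj]
      · intro h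
        exact absurd (Finset.mem_univ i) h
    simp only [h4, mul_zero, add_zero, mul_one]
  have h5 := h2.congr_of_eventuallyEq (Filter.Eventually.of_forall fun z => h3 z)
  have h6 := h1.unique h5
  simpa only [zero_smul, add_zero, mul_one, mul_zero] using h6

theorem tr_single (a b : Fin d) (M : Mat d) : Matrix.trace (Matrix.single a b (1 : ℂ) * M) = M b a := by
  simp [Matrix.trace, Matrix.mul_apply, Matrix.single_apply, Finset.sum_ite_eq, ite_and]

theorem tr_diag (x : Fin d → ℂ) (U : UU d) :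
    Matrix.trace (Matrix.diagonal x * (U : Mat d)ᴴ) = LL x U := by
  simp [Matrix.trace, LL, Matrix.diagonal_mul, Matrix.conjTranspose_apply]

/-- first identity -/
theorem idn1 (hSD : S_SD) (t : ℕ) (x : Fin d → ℂ) (i j : Fin d) :
    (x i - x j) * ((t : ℂ) * ∫ U : UU d, (Matrix.trace (U : Mat d)) ^ (t + 1) *
      (star ((U : Mat d) i j) * star ((U : Mat d) j i)) * LL x U ^ (t - 1) ∂(haarU (Fin d))) =
    (∫ U : UU d, (Matrix.trace (U : Mat d)) ^ (t + 1) * (LL x U ^ t * star ((U : Mat d) i i)) ∂(haarU (Fin d))) -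
    ∫ U : UU d, (Matrix.trace (U : Mat d)) ^ (t + 1) * (LL x U ^ t * star ((U : Mat d) j j)) ∂(haarU (Fin d)) := by
  obtain ⟨k1, k2⟩ := pol hSD t (Matrix.diagonal x) (Matrix.single i j 1) (Matrix.single j i 1)
  have k := k1.symm.trans k2
  have c0 : ∀ n : ℕ, Continuous fun U : UU d => (Matrix.trace (U : Mat d)) ^ n := fun n => cont_tr.pow n
  have m1 : ∀ U : UU d, (Matrix.trace (U : Mat d)) ^ (t + 1) *
      ((t : ℂ) * Matrix.trace (Matrix.diagonal x * (U : Mat d)ᴴ) ^ (t - 1) *
        Matrix.trace (Matrix.single j i 1 * (U : Mat d)ᴴ) *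
        Matrix.trace (Matrix.single i j 1 * Matrix.diagonal x * (U : Mat d)ᴴ) +
        Matrix.trace (Matrix.diagonal x * (U : Mat d)ᴴ) ^ t *
          Matrix.trace (Matrix.single i j 1 * Matrix.single j i 1 * (U : Mat d)ᴴ)) =
      (x j * t) * ((Matrix.trace (U : Mat d)) ^ (t + 1) *
      (star ((U : Mat d) i j) * star ((U : Mat d) j i)) * LL x U ^ (t - 1)) +
      (Matrix.trace (U : Mat d)) ^ (t + 1) * (LL x U ^ t * star ((U : Mat d) i i)) := by
    intro U
    rw [tr_diag, tr_single, Matrix.mul_assoc (Matrix.single i j 1), tr_single, Matrix.single_mul_single_same, mul_one,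
      tr_single, Matrix.diagonal_mul, Matrix.conjTranspose_apply, Matrix.conjTranspose_apply,
      Matrix.conjTranspose_apply]
    ring
  have m2 : ∀ U : UU d, (Matrix.trace (U : Mat d)) ^ (t + 1) *
      ((t : ℂ) * Matrix.trace (Matrix.diagonal x * (U : Mat d)ᴴ) ^ (t - 1) *
        Matrix.trace (Matrix.single j i 1 * (U : Mat d)ᴴ) *
        Matrix.trace (Matrix.diagonal x * Matrix.single i j 1 * (U : Mat d)ᴴ) +
        Matrix.trace (Matrix.diagonal x * (U : Mat d)ᴴ) ^ t *
          Matrix.trace (Matrix.single j i 1 * Matrix.single i j 1 * (U : Mat d)ᴴ)) =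
      (x i * t) * ((Matrix.trace (U : Mat d)) ^ (t + 1) *
      (star ((U : Mat d) i j) * star ((U : Mat d) j i)) * LL x U ^ (t - 1)) +
      (Matrix.trace (U : Mat d)) ^ (t + 1) * (LL x U ^ t * star ((U : Mat d) j j)) := by
    intro U
    have e1 : Matrix.diagonal x * Matrix.single i j (1 : ℂ) = x i • Matrix.single i j (1 : ℂ) := by
      ext a b
      rw [Matrix.diagonal_mul, Matrix.smul_apply, smul_eq_mul, Matrix.single_apply]
      by_cases h : i = a ∧ j = b
      · rw [if_pos h, h.1]
      · rw [if_neg h, mul_zero, mul_zero]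
    rw [tr_diag, tr_single, e1, Matrix.smul_mul, Matrix.trace_smul, tr_single, Matrix.single_mul_single_same, mul_one,
      tr_single, Matrix.conjTranspose_apply, Matrix.conjTranspose_apply, Matrix.conjTranspose_apply, smul_eq_mul]
    ring
  simp only [m1, m2] at k
  have cA : Continuous fun U : UU d => (Matrix.trace (U : Mat d)) ^ (t + 1) *
      (star ((U : Mat d) i j) * star ((U : Mat d) j i)) * LL x U ^ (t - 1) :=
    ((c0 _).mul ((cont_star i j).mul (cont_star j i))).mul ((cont_LL x).pow _)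
  have cD : ∀ i : Fin d, Continuous fun U : UU d =>
      (Matrix.trace (U : Mat d)) ^ (t + 1) * (LL x U ^ t * star ((U : Mat d) i i)) :=
    fun i => (c0 _).mul (((cont_LL x).pow _).mul (cont_star i i))
  rw [integral_add ((integ cA).const_mul _) (integ (cD i)), integral_add ((integ cA).const_mul _) (integ (cD j)),
    integral_const_mul, integral_const_mul] at k
  linear_combination (-1 : ℂ) * k

/-- the columns of a unitary matrix are unit vectors -/
theorem col_unit (U : UU d) (a : Fin d) : ∑ b, (U : Mat d) b a * star ((U : Mat d) b a) = 1 := by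
  have h : star (U : Mat d) * (U : Mat d) = 1 := Matrix.mem_unitaryGroup_iff'.mp U.2
  have h1 := congrFun (congrFun h a) a
  rw [Matrix.mul_apply, Matrix.one_apply_eq] at h1
  rw [← h1]
  refine Finset.sum_congr rfl fun b _ => ?_
  rw [Matrix.star_apply, mul_comm]

/-- second identity -/
theorem idn2 (hSD : S_SD) (t : ℕ) (x : Fin d → ℂ) :
    (t : ℂ) * (∑ a, ∑ b, x a * x b * ∫ U : UU d, (Matrix.trace (U : Mat d)) ^ (t + 1) *
      (star ((U : Mat d) a b) * star ((U : Mat d) b a)) * LL x U ^ (t - 1) ∂(haarU (Fin d))) +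
      d * ∫ U : UU d, (Matrix.trace (U : Mat d)) ^ (t + 1) * LL x U ^ (t + 1) ∂(haarU (Fin d)) =
    ((t : ℂ) + 1) * (∑ a, x a) * ∫ U : UU d, (Matrix.trace (U : Mat d)) ^ t * LL x U ^ t ∂(haarU (Fin d)) := by
  have c0 : ∀ n : ℕ, Continuous fun U : UU d => (Matrix.trace (U : Mat d)) ^ n := fun n => cont_tr.pow n
  have cA : ∀ a b : Fin d, Continuous fun U : UU d => (Matrix.trace (U : Mat d)) ^ (t + 1) *
      (star ((U : Mat d) a b) * star ((U : Mat d) b a)) * LL x U ^ (t - 1) := fun a b =>
    ((c0 _).mul ((cont_star a b).mul (cont_star b a))).mul ((cont_LL x).pow _)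
  have cD : ∀ i : Fin d, Continuous fun U : UU d =>
      (Matrix.trace (U : Mat d)) ^ (t + 1) * (LL x U ^ t * star ((U : Mat d) i i)) :=
    fun i => (c0 _).mul (((cont_LL x).pow _).mul (cont_star i i))
  have cE : ∀ a b : Fin d, Continuous fun U : UU d =>
      (Matrix.trace (U : Mat d)) ^ t * LL x U ^ t * ((U : Mat d) b a * star ((U : Mat d) b a)) := fun a b =>
    ((c0 _).mul ((cont_LL x).pow _)).mul ((cont_entry b a).mul (cont_star b a))
  have key : ∀ a b : Fin d, (((t : ℂ) + 1) * x a) * ∫ U : UU d,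
      (Matrix.trace (U : Mat d)) ^ t * LL x U ^ t * ((U : Mat d) b a * star ((U : Mat d) b a)) ∂(haarU (Fin d)) =
      (t : ℂ) * (x a * x b * ∫ U : UU d, (Matrix.trace (U : Mat d)) ^ (t + 1) *
        (star ((U : Mat d) a b) * star ((U : Mat d) b a)) * LL x U ^ (t - 1) ∂(haarU (Fin d))) +
      x a * ∫ U : UU d, (Matrix.trace (U : Mat d)) ^ (t + 1) * (LL x U ^ t * star ((U : Mat d) a a))
        ∂(haarU (Fin d)) := by
    intro a b
    have k := (pol hSD t (Matrix.diagonal x) (Matrix.single a b 1) (Matrix.single b a 1 * Matrix.diagonal x)).1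
    have n1 : ∀ U : UU d, (Matrix.trace (U : Mat d)) ^ t * Matrix.trace (Matrix.single a b 1 * (U : Mat d)) *
        (((t + 1 : ℕ) : ℂ) * Matrix.trace (Matrix.diagonal x * (U : Mat d)ᴴ) ^ t *
          Matrix.trace (Matrix.single b a 1 * Matrix.diagonal x * (U : Mat d)ᴴ)) =
        (((t : ℂ) + 1) * x a) * ((Matrix.trace (U : Mat d)) ^ t * LL x U ^ t *
          ((U : Mat d) b a * star ((U : Mat d) b a))) := by
      intro U
      rw [tr_diag, tr_single, Matrix.mul_assoc (Matrix.single b a 1), tr_single, Matrix.diagonal_mul,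
        Matrix.conjTranspose_apply]
      push_cast
      ring
    have n2 : ∀ U : UU d, (Matrix.trace (U : Mat d)) ^ (t + 1) *
        ((t : ℂ) * Matrix.trace (Matrix.diagonal x * (U : Mat d)ᴴ) ^ (t - 1) *
          Matrix.trace (Matrix.single b a 1 * Matrix.diagonal x * (U : Mat d)ᴴ) *
          Matrix.trace (Matrix.single a b 1 * Matrix.diagonal x * (U : Mat d)ᴴ) +
          Matrix.trace (Matrix.diagonal x * (U : Mat d)ᴴ) ^ t *
            Matrix.trace (Matrix.single a b 1 * (Matrix.single b a 1 * Matrix.diagonal x) * (U : Mat d)ᴴ)) =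
        (t * (x a * x b)) * ((Matrix.trace (U : Mat d)) ^ (t + 1) *
        (star ((U : Mat d) a b) * star ((U : Mat d) b a)) * LL x U ^ (t - 1)) +
        x a * ((Matrix.trace (U : Mat d)) ^ (t + 1) * (LL x U ^ t * star ((U : Mat d) a a))) := by
      intro U
      rw [tr_diag, Matrix.mul_assoc (Matrix.single b a 1), tr_single, Matrix.mul_assoc (Matrix.single a b 1), tr_single,
        ← Matrix.mul_assoc (Matrix.single a b 1) (Matrix.single b a 1), Matrix.single_mul_single_same, mul_one,
        Matrix.mul_assoc (Matrix.single a a 1), tr_single, Matrix.diagonal_mul, Matrix.diagonal_mul,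
        Matrix.diagonal_mul, Matrix.conjTranspose_apply, Matrix.conjTranspose_apply, Matrix.conjTranspose_apply]
      ring
    simp only [n1, n2] at k
    rw [integral_add ((integ (cA a b)).const_mul _) ((integ (cD a)).const_mul _), integral_const_mul,
      integral_const_mul, integral_const_mul] at k
    rw [k]
    ring
  have hE : ∀ a : Fin d, ∑ b, ∫ U : UU d,
      (Matrix.trace (U : Mat d)) ^ t * LL x U ^ t * ((U : Mat d) b a * star ((U : Mat d) b a)) ∂(haarU (Fin d)) =
      ∫ U : UU d, (Matrix.trace (U : Mat d)) ^ t * LL x U ^ t ∂(haarU (Fin d)) := by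
    intro a
    rw [← integral_finsetSum _ fun b _ => integ (cE a b)]
    refine integral_congr_ae (Filter.Eventually.of_forall fun U => ?_)
    simp only [← Finset.mul_sum, col_unit, mul_one]
  have hDD : ∑ a, x a * ∫ U : UU d, (Matrix.trace (U : Mat d)) ^ (t + 1) * (LL x U ^ t * star ((U : Mat d) a a))
        ∂(haarU (Fin d)) = ∫ U : UU d, (Matrix.trace (U : Mat d)) ^ (t + 1) * LL x U ^ (t + 1) ∂(haarU (Fin d)) := by
    simp only [← integral_const_mul]
    rw [← integral_finsetSum _ fun a _ => (integ (cD a)).const_mul (x a)]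
    refine integral_congr_ae (Filter.Eventually.of_forall fun U => ?_)
    have h : LL x U = ∑ i, x i * star ((U : Mat d) i i) := rfl
    beta_reduce
    calc ∑ a, x a * ((Matrix.trace (U : Mat d)) ^ (t + 1) * (LL x U ^ t * star ((U : Mat d) a a)))
        = (Matrix.trace (U : Mat d)) ^ (t + 1) * (LL x U ^ t * ∑ i, x i * star ((U : Mat d) i i)) := by
          rw [Finset.mul_sum, Finset.mul_sum]
          refine Finset.sum_congr rfl fun a _ => ?_
          ring
      _ = (Matrix.trace (U : Mat d)) ^ (t + 1) * LL x U ^ (t + 1) := by rw [← h, pow_succ (LL x U) t]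
  have h1 : ∑ a, ∑ b, (((t : ℂ) + 1) * x a) * ∫ U : UU d,
      (Matrix.trace (U : Mat d)) ^ t * LL x U ^ t * ((U : Mat d) b a * star ((U : Mat d) b a)) ∂(haarU (Fin d)) =
      ((t : ℂ) + 1) * (∑ a, x a) * ∫ U : UU d, (Matrix.trace (U : Mat d)) ^ t * LL x U ^ t ∂(haarU (Fin d)) := by
    simp only [← Finset.mul_sum, hE]
    rw [← Finset.sum_mul, ← Finset.mul_sum]
  rw [← h1]
  simp only [key, Finset.sum_add_distrib, Finset.sum_const, Finset.card_univ, Fintype.card_fin, nsmul_eq_mul,
    ← Finset.mul_sum, hDD]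

theorem t_C2P (hSD : S_SD) : S_C2P := by
  intro d t
  have c0 : ∀ n : ℕ, Continuous fun U : UU d => (Matrix.trace (U : Mat d)) ^ n := fun n => cont_tr.pow n
  have cS : ∀ i j : Fin d, Continuous fun U : UU d => (Matrix.trace (U : Mat d)) ^ (t + 1) *
      (star ((U : Mat d) i j) * star ((U : Mat d) j i)) := fun i j =>
    (c0 _).mul ((cont_star i j).mul (cont_star j i))
  have hf : ∀ (n : ℕ) (y : Fin d → ℂ), MvPolynomial.eval y (fp d n) =
      ∫ U : UU d, (Matrix.trace (U : Mat d)) ^ n * LL y U ^ n ∂(haarU (Fin d)) := by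
    intro n y
    rw [fp_eq]
    exact eval_qq _ (c0 n) n y
  have hf1 : ∀ (x : Fin d → ℂ) (i : Fin d), MvPolynomial.eval x (MvPolynomial.pderiv i (fp d (t + 1))) =
      ((t : ℂ) + 1) * ∫ U : UU d, (Matrix.trace (U : Mat d)) ^ (t + 1) * (LL x U ^ t * star ((U : Mat d) i i))
        ∂(haarU (Fin d)) := by
    intro x i
    rw [eval_pderiv (fp d (t + 1)) _ (c0 (t + 1)) (t + 1) (hf (t + 1)) x i, ← integral_const_mul]
    refine integral_congr_ae (Filter.Eventually.of_forall fun U => ?_)
    simp only [Nat.add_sub_cancel]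
    push_cast
    ring
  have hf2 : ∀ (x : Fin d → ℂ) (i : Fin d),
      MvPolynomial.eval x (MvPolynomial.pderiv i (MvPolynomial.pderiv i (fp d (t + 1)))) =
      (((t : ℂ) + 1) * t) * ∫ U : UU d, (Matrix.trace (U : Mat d)) ^ (t + 1) *
        (star ((U : Mat d) i i) * star ((U : Mat d) i i)) * LL x U ^ (t - 1) ∂(haarU (Fin d)) := by
    intro x i
    rw [eval_pderiv (MvPolynomial.pderiv i (fp d (t + 1)))
      (fun U : UU d => ((t : ℂ) + 1) * ((Matrix.trace (U : Mat d)) ^ (t + 1) * star ((U : Mat d) i i)))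
      (continuous_const.mul ((c0 _).mul (cont_star i i))) t ?_ x i, ← integral_const_mul]
    · refine integral_congr_ae (Filter.Eventually.of_forall fun U => ?_)
      beta_reduce
      ring
    · intro y
      rw [hf1, ← integral_const_mul]
      refine integral_congr_ae (Filter.Eventually.of_forall fun U => ?_)
      beta_reduce
      ring
  have hs : ∀ (x : Fin d → ℂ) (i j : Fin d), MvPolynomial.eval x (MvPolynomial.C (((t : ℂ) + 1) * t) *
      qq (fun U : UU d => (Matrix.trace (U : Mat d)) ^ (t + 1) * (star ((U : Mat d) i j) * star ((U : Mat d) j i)))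
        (t - 1)) = (((t : ℂ) + 1) * t) * ∫ U : UU d, (Matrix.trace (U : Mat d)) ^ (t + 1) *
        (star ((U : Mat d) i j) * star ((U : Mat d) j i)) * LL x U ^ (t - 1) ∂(haarU (Fin d)) := by
    intro x i j
    rw [map_mul, MvPolynomial.eval_C, eval_qq _ (cS i j)]
  refine ⟨fun i j => MvPolynomial.C (((t : ℂ) + 1) * t) *
    qq (fun U : UU d => (Matrix.trace (U : Mat d)) ^ (t + 1) * (star ((U : Mat d) i j) * star ((U : Mat d) j i)))
      (t - 1), fun i j => ?_, ?_⟩
  · refine MvPolynomial.funext fun x => ?_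
    rw [map_mul, hs, map_sub, map_sub, MvPolynomial.eval_X, MvPolynomial.eval_X, hf1, hf1]
    have h := idn1 hSD t x i j
    linear_combination ((t : ℂ) + 1) * h
  · refine MvPolynomial.funext fun x => ?_
    simp only [map_add, map_sum, map_mul, map_pow, MvPolynomial.eval_X, MvPolynomial.eval_C, hf2, hf,
      eval_qq _ (cS _ _)]
    have h := idn2 hSD t x
    have h1 : ∀ a : Fin d, ∑ b, x a * x b * ∫ U : UU d, (Matrix.trace (U : Mat d)) ^ (t + 1) *
        (star ((U : Mat d) a b) * star ((U : Mat d) b a)) * LL x U ^ (t - 1) ∂(haarU (Fin d)) =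
        (x a * x a * ∫ U : UU d, (Matrix.trace (U : Mat d)) ^ (t + 1) *
        (star ((U : Mat d) a a) * star ((U : Mat d) a a)) * LL x U ^ (t - 1) ∂(haarU (Fin d))) +
        ∑ b ∈ Finset.univ.erase a, x a * x b * ∫ U : UU d, (Matrix.trace (U : Mat d)) ^ (t + 1) *
        (star ((U : Mat d) a b) * star ((U : Mat d) b a)) * LL x U ^ (t - 1) ∂(haarU (Fin d)) := fun a =>
      (Finset.add_sum_erase _ _ (Finset.mem_univ a)).symm
    simp only [h1, Finset.sum_add_distrib] at h
    have h2 : ∑ i, x i ^ 2 * ((((t : ℂ) + 1) * t) * ∫ U : UU d, (Matrix.trace (U : Mat d)) ^ (t + 1) *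
        (star ((U : Mat d) i i) * star ((U : Mat d) i i)) * LL x U ^ (t - 1) ∂(haarU (Fin d))) =
        (((t : ℂ) + 1) * t) * ∑ a, x a * x a * ∫ U : UU d, (Matrix.trace (U : Mat d)) ^ (t + 1) *
        (star ((U : Mat d) a a) * star ((U : Mat d) a a)) * LL x U ^ (t - 1) ∂(haarU (Fin d)) := by
      rw [Finset.mul_sum]
      refine Finset.sum_congr rfl fun a _ => ?_
      ring
    have h3 : ∑ i, ∑ j ∈ Finset.univ.erase i, x i * x j * ((((t : ℂ) + 1) * t) *
        ∫ U : UU d, (Matrix.trace (U : Mat d)) ^ (t + 1) *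
        (star ((U : Mat d) i j) * star ((U : Mat d) j i)) * LL x U ^ (t - 1) ∂(haarU (Fin d))) =
        (((t : ℂ) + 1) * t) * ∑ a, ∑ b ∈ Finset.univ.erase a, x a * x b * ∫ U : UU d,
        (Matrix.trace (U : Mat d)) ^ (t + 1) *
        (star ((U : Mat d) a b) * star ((U : Mat d) b a)) * LL x U ^ (t - 1) ∂(haarU (Fin d)) := by
      rw [Finset.mul_sum]
      refine Finset.sum_congr rfl fun a _ => ?_
      rw [Finset.mul_sum]
      refine Finset.sum_congr rfl fun b _ => ?_
      ring
    rw [h2, h3]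
    linear_combination ((t : ℂ) + 1) * h

end Pool.Agent.J4H97.QB.C2
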